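import Pool.Agent.Q293.DPG.Family
import Pool.Agent.Q293.DPG.Lower

/-!
# MP_f79b02 : `ρ(k)` is finite and grows like a tower of twos of height `k + O(1)`

`tw (k - 4) + (k - 2) ≤ ρ(k) ≤ tw (k - 2)` for all `k ≥ 4`, where `tw 0 = 1` and
`tw (n + 1) = 2 ^ tw n`.
-/

namespace Pool.Agent.Results.MP_f79b02_co.TowerGrowth

open SimpleGraph Pool.Agent.Q293.DPG

/-- `ρ(k)`: the least forcing time of `K_k` over all finite triangle-free graphs. -/
noncomputable def rho (k : ℕ) : ℕ∞ :=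
  sInf {x : ℕ∞ | ∃ (n : ℕ) (G : SimpleGraph (Fin n)), G.CliqueFree 3 ∧
    x = forcingTime (completeGraph (Fin k)) G}

lemma cliqueFree_of_acyclic {n : ℕ} {G : SimpleGraph (Fin n)} (h : G.IsAcyclic) :
    G.CliqueFree 3 := by
  classical
  intro s hs
  rw [SimpleGraph.is3Clique_iff] at hs
  obtain ⟨a, b, c, hab, hac, hbc, -⟩ := hs
  have hp : (Walk.cons hac.symm (Walk.cons hab Walk.nil) : G.Walk c b).IsPath := by
    rw [Walk.isPath_def]
    simp [hab.ne, hac.ne', hbc.ne']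
  have hq : (Walk.cons hbc.symm Walk.nil : G.Walk c b).IsPath := by
    rw [Walk.isPath_def]
    simp [hbc.ne']
  have := (SimpleGraph.isAcyclic_iff_path_unique.mp h) ⟨_, hp⟩ ⟨_, hq⟩
  have h2 := congrArg (fun p : G.Path c b => p.1.length) this
  simp at h2

/-- **MP_f79b02.** For every `k ≥ 4`, `tw (k - 4) + (k - 2) ≤ ρ(k) ≤ tw (k - 2)`. -/
theorem result : ∀ k : ℕ, 4 ≤ k →
    ((tw (k - 4) + (k - 2) : ℕ) : ℕ∞) ≤ rho k ∧ rho k ≤ ((tw (k - 2) : ℕ) : ℕ∞) := by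
  intro k hk
  constructor
  · obtain ⟨m, rfl⟩ : ∃ m, k = (m + 1) + 3 := ⟨k - 4, by omega⟩
    apply le_sInf
    rintro x ⟨n, G, hG, rfl⟩
    apply le_sInf
    rintro x ⟨t, rfl, ht⟩
    by_contra hcon
    push Not at hcon
    have h1 : t < tw (m + 1 + 3 - 4) + (m + 1 + 3 - 2) := by exact_mod_cast hcon
    have h2 : m + 1 + 3 - 4 = m := by omega
    rw [h2] at h1
    have h3 : y (m + 1) = tw m + (m + 1) := rfl
    exact not_forces (m + 1) t (by omega) (Fin n) G hG ht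
  · obtain ⟨j, rfl⟩ : ∃ j, k = j + 2 := ⟨k - 2, by omega⟩
    obtain ⟨n, G, hG, hF⟩ := forces_from_forest j
    have h2 : e j ≤ tw j := e_le_tw j (by omega)
    refine le_trans (sInf_le ⟨n, G, cliqueFree_of_acyclic hG, rfl⟩)
      (le_trans (sInf_le ⟨e j, rfl, hF⟩) ?_)
    have : j + 2 - 2 = j := by omega
    rw [this]
    exact_mod_cast h2

end Pool.Agent.Results.MP_f79b02_co.TowerGrowth
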